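import Pool.Agent.Helper69.MF.StA

/-! Project MF, module CUT: cut and reflect. -/

set_option autoImplicit false

namespace Pool.Agent.Helper99.MF

open Set Topology Filter MeasureTheory
open Pool.Agent.Helper31.CY Pool.Agent.Helper69.MF

/-- the reflection -/
private noncomputable def rfl' (n x : E3) : E3 := x - (2 * dt x n) • n

private theorem dt_nv (φ : ℝ) : dt (nv φ) (nv φ) = 1 := by
  unfold dt nv pt
  simp
  nlinarith [Real.sin_sq_add_cos_sq φ]

private theorem dt_sub (x y n : E3) : dt (x - y) n = dt x n - dt y n := by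
  unfold dt
  simp only [PiLp.sub_apply]
  ring

private theorem dt_smul (c : ℝ) (x n : E3) : dt (c • x) n = c * dt x n := by
  unfold dt
  simp only [PiLp.smul_apply, smul_eq_mul]
  ring

private theorem dt_cont (n : E3) : Continuous (fun x : E3 => dt x n) := by
  unfold dt
  fun_prop

private theorem rfl_dt {n : E3} (hn : dt n n = 1) (x : E3) : dt (rfl' n x) n = - dt x n := by
  unfold rfl'
  rw [dt_sub, dt_smul, hn]
  ring

private theorem rfl_rfl {n : E3} (hn : dt n n = 1) (x : E3) : rfl' n (rfl' n x) = x := by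
  have h := rfl_dt hn x
  have h1 : rfl' n (rfl' n x) = rfl' n x - (2 * dt (rfl' n x) n) • n := rfl
  rw [h1, h]
  unfold rfl'
  rw [mul_neg, neg_smul]
  abel

private theorem norm_sq3 (x : E3) : ‖x‖ ^ 2 = dt x x := by
  rw [EuclideanSpace.norm_sq_eq, Fin.sum_univ_three]
  unfold dt
  simp only [Real.norm_eq_abs, sq_abs]
  ring

private theorem rfl_norm {n : E3} (hn : dt n n = 1) (x : E3) : ‖rfl' n x‖ = ‖x‖ := by
  have h : ‖rfl' n x‖ ^ 2 = ‖x‖ ^ 2 := by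
    rw [norm_sq3, norm_sq3]
    have h1 : dt (rfl' n x) (rfl' n x) = dt x x + 4 * (dt x n) ^ 2 * (dt n n - 1) := by
      unfold rfl' dt
      simp only [PiLp.sub_apply, PiLp.smul_apply, smul_eq_mul]
      ring
    rw [h1, hn]
    ring
  have h2 := abs_eq_abs.2 (sq_eq_sq_iff_eq_or_eq_neg.1 h)
  rwa [abs_of_nonneg (norm_nonneg _), abs_of_nonneg (norm_nonneg _)] at h2

private theorem rfl_isom {n : E3} (hn : dt n n = 1) : Isometry (rfl' n) := by
  refine Isometry.of_dist_eq fun x y => ?_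
  rw [dist_eq_norm, dist_eq_norm]
  have h : rfl' n x - rfl' n y = rfl' n (x - y) := by
    unfold rfl'
    rw [dt_sub, mul_sub, sub_smul]
    abel
  rw [h, rfl_norm hn]

private theorem fold_pos {φ : ℝ} {x : E3} (h : 0 ≤ dt x (nv φ)) : fold φ x = x := by
  unfold fold
  rw [min_eq_right h, mul_zero, zero_smul, sub_zero]

private theorem fold_neg {φ : ℝ} {x : E3} (h : dt x (nv φ) < 0) : fold φ x = rfl' (nv φ) x := by
  unfold fold rfl'
  rw [min_eq_left h.le]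

private theorem fold_norm (φ : ℝ) (x : E3) : ‖fold φ x‖ = ‖x‖ := by
  rcases le_or_gt 0 (dt x (nv φ)) with h | h
  · rw [fold_pos h]
  · rw [fold_neg h, rfl_norm (dt_nv φ)]

private theorem fold_cont (φ : ℝ) : Continuous (fold φ) := by
  unfold fold
  have h := dt_cont (nv φ)
  fun_prop

private theorem cutr_compact (φ : ℝ) {S : Set E3} (hS : IsCompact S) : IsCompact (cutr φ S) := by
  obtain ⟨r, hr⟩ := hS.isBounded.subset_closedBall (0 : E3)
  refine IsCompact.of_isClosed_subset (isCompact_closedBall (0 : E3) r)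
    (hS.isClosed.preimage (fold_cont φ)) ?_
  intro x hx
  have h1 := hr (show fold φ x ∈ S from hx)
  rw [mem_closedBall_zero_iff] at h1 ⊢
  rwa [fold_norm] at h1

private theorem cutr_sub (φ : ℝ) (S : Set E3) : cutr φ S ⊆ (S ∩ {x | 0 ≤ dt x (nv φ)}) ∪
    rfl' (nv φ) '' (S ∩ {x | 0 < dt x (nv φ)}) := by
  intro x hx
  have hx' : fold φ x ∈ S := hx
  rcases le_or_gt 0 (dt x (nv φ)) with h | h
  · rw [fold_pos h] at hx'
    exact Or.inl ⟨hx', h⟩
  · rw [fold_neg h] at hx'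
    refine Or.inr ⟨rfl' (nv φ) x, ⟨hx', ?_⟩, rfl_rfl (dt_nv φ) x⟩
    change 0 < dt (rfl' (nv φ) x) (nv φ)
    rw [rfl_dt (dt_nv φ)]
    linarith

private theorem cutr_ar (φ : ℝ) (S : Set E3) : ar (cutr φ S) ≤
    ar (S ∩ {x | 0 ≤ dt x (nv φ)}) + ar (S ∩ {x | 0 < dt x (nv φ)}) := by
  unfold ar
  refine (measure_mono (cutr_sub φ S)).trans ((measure_union_le _ _).trans ?_)
  rw [(rfl_isom (dt_nv φ)).hausdorffMeasure_image (Or.inl (by norm_num))]

private theorem nv_pi (φ : ℝ) (x : E3) : dt x (nv (φ + Real.pi)) = - dt x (nv φ) := by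
  unfold dt nv pt
  simp
  ring

private theorem sum_le (φ : ℝ) (S : Set E3) :
    ar (cutr φ S) + ar (cutr (φ + Real.pi) S) ≤ 2 * ar S := by
  have h1 := cutr_ar φ S
  have h2 := cutr_ar (φ + Real.pi) S
  have e1 : {x : E3 | 0 ≤ dt x (nv (φ + Real.pi))} = {x | 0 < dt x (nv φ)}ᶜ := by
    ext x
    change 0 ≤ dt x (nv (φ + Real.pi)) ↔ ¬ (0 < dt x (nv φ))
    rw [nv_pi, not_lt, neg_nonneg]
  have e2 : {x : E3 | 0 < dt x (nv (φ + Real.pi))} = {x | 0 ≤ dt x (nv φ)}ᶜ := by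
    ext x
    change 0 < dt x (nv (φ + Real.pi)) ↔ ¬ (0 ≤ dt x (nv φ))
    rw [nv_pi, not_le, neg_pos]
  rw [e1, e2] at h2
  have m1 : MeasurableSet {x : E3 | 0 ≤ dt x (nv φ)} :=
    (isClosed_Ici.preimage (dt_cont (nv φ))).measurableSet
  have m2 : MeasurableSet {x : E3 | 0 < dt x (nv φ)} :=
    (isOpen_Ioi.preimage (dt_cont (nv φ))).measurableSet
  have s1 : ar (S ∩ {x | 0 ≤ dt x (nv φ)}) + ar (S ∩ {x | 0 ≤ dt x (nv φ)}ᶜ) = ar S :=
    measure_inter_add_sdiff S m1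
  have s2 : ar (S ∩ {x | 0 < dt x (nv φ)}) + ar (S ∩ {x | 0 < dt x (nv φ)}ᶜ) = ar S :=
    measure_inter_add_sdiff S m2
  refine (add_le_add h1 h2).trans (le_of_eq ?_)
  rw [two_mul]
  nth_rewrite 1 [← s1]
  rw [← s2]
  abel

theorem hCUT : StFLD → StCUT := by
  intro hFLD r0 r1 h φ hr0 hr1 hh S hS
  have hsp : ∀ (ψ : ℝ) (𝒞 : Set (unitInterval → E3)), HC (circ r0 0 ∪ circ r1 h) 𝒞 →
      Spans 𝒞 S → Spans 𝒞 (cutr ψ S) := by
    intro ψ 𝒞 hC hs γ hγ
    exact hs _ (hC.2 γ hγ _ (hFLD r0 r1 h ψ hr0 hr1 hh γ (hC.1 γ hγ)))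
  refine ⟨cutr_compact φ hS, sum_le φ S, ?_⟩
  intro 𝒞 hC hs
  refine ⟨hsp φ 𝒞 hC hs, ?_⟩
  intro hM hf
  have a1 := hM.2.2 _ (cutr_compact φ hS) (hsp φ 𝒞 hC hs)
  have a2 := hM.2.2 _ (cutr_compact (φ + Real.pi) hS) (hsp (φ + Real.pi) 𝒞 hC hs)
  have h3 := sum_le φ S
  have h4 : ar (cutr φ S) + ar S ≤ ar S + ar S := by
    rw [← two_mul]
    exact (add_le_add le_rfl a2).trans h3
  have h5 : ar (cutr φ S) ≤ ar S := (ENNReal.add_le_add_iff_right hf.ne).1 h4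
  have h6 : ar (cutr φ S) = ar S := le_antisymm h5 a1
  refine ⟨⟨cutr_compact φ hS, hsp φ 𝒞 hC hs, ?_⟩, h6⟩
  intro S' hS' hs'
  rw [h6]
  exact hM.2.2 S' hS' hs'

end Pool.Agent.Helper99.MF
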